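import Pool.Agent.Q66.BS.Belt

/-!
# Pieces which are far from each other commute; linearity of the operators
-/

set_option autoImplicit false

namespace Pool.Agent.Q66.MV

open Finset Matrix Pool.Agent.W715.VC Pool.Agent.H550R3.Jones Pool.Agent.Q66.TG Pool.Agent.Q66.BS
open Pool.Agent.W709.QAT (Piece run cup cap kap Diag)
open Pool.Agent.W591.QAT (act_twist act_cup act_cap)

variable {N : ℕ}

/-- the value of the image of a vector at a list is a linear combination of its values -/
theorem act_repr (P : Piece) (n : ℕ) (h : Fit P n) (t : List (Fin N)) (ht : t.length = out P n) :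
    ∃ (c : Fin N × Fin N → ℂ) (l : Fin N × Fin N → List (Fin N)), (∀ p, (l p).length = n) ∧
      ∀ f : List (Fin N) → ℂ, P.act N (rt N) f t = ∑ p, c p * f (l p) := by
  cases P with
  | cup k =>
    obtain ⟨j, rfl⟩ : ∃ j, n = k + j := ⟨n - k, by simp only [Fit] at h; omega⟩
    obtain ⟨T, u, a, b, rfl, hu, rfl⟩ := split_two (s := t) (i := k) (j := j)
      (by rw [ht]; simp only [out]; omega)
    refine ⟨fun p => if p = (a, b) then cup N (rt N) (a, b) else 0, fun _ => T ++ u, fun p => by
      simp [hu], fun f => ?_⟩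
    rw [act_cup _ _ T u a b rfl, sum_eq_single (a, b)]
    · dsimp only
      rw [if_pos rfl]
    · intro p _ hp
      dsimp only
      rw [if_neg hp, zero_mul]
    · intro hp
      exact absurd (mem_univ _) hp
  | cap k =>
    obtain ⟨j, rfl⟩ : ∃ j, n = k + (2 + j) := ⟨n - k - 2, by simp only [Fit] at h; omega⟩
    obtain ⟨T, u, rfl, hu, rfl⟩ := split_at (s := t) (i := k) (j := j)
      (by rw [ht]; simp only [out]; omega)
    refine ⟨fun p => cap N (rt N) p, fun p => T ++ p.1 :: p.2 :: u, fun p => by simp; omega,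
      fun f => ?_⟩
    rw [act_cap _ _ T u rfl]
  | twist k σ m =>
    obtain ⟨j, rfl⟩ : ∃ j, n = k + (2 + j) := ⟨n - k - 2, by simp only [Fit] at h; omega⟩
    obtain ⟨T, u, a, b, rfl, hu, rfl⟩ := split_two (s := t) (i := k) (j := j) ht
    refine ⟨fun p => ((if σ then crossP N (rt N) else crossN N (rt N)) ^ m) (a, b) p,
      fun p => T ++ p.1 :: p.2 :: u, fun p => by simp; omega, fun f => ?_⟩
    rw [act_twist _ _ _ _ T u a b rfl]

theorem act_mul (P : Piece) (c : ℂ) (f : List (Fin N) → ℂ) :
    P.act N (rt N) (fun s => c * f s) = fun s => c * P.act N (rt N) f s := by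
  funext s
  cases P with
  | cup k =>
    unfold Piece.act
    dsimp only
    split
    · ring
    · rw [mul_zero]
  | cap k =>
    unfold Piece.act
    dsimp only
    rw [mul_sum]
    exact sum_congr rfl fun p _ => by ring
  | twist k σ m =>
    unfold Piece.act
    dsimp only
    split
    · rw [mul_sum]
      exact sum_congr rfl fun p _ => by ring
    · rw [mul_zero]

theorem run_mul : ∀ (D : Diag) (c : ℂ) (f : List (Fin N) → ℂ),
    run N (rt N) D (fun s => c * f s) = fun s => c * run N (rt N) D f s
  | [], c, f => rfl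
  | P :: D, c, f => by rw [run_cons, run_cons, act_mul, run_mul D]

lemma shP_zero (P : Piece) : shP 0 P = P := by
  cases P <;> simp [shP]

theorem far (P Q : Piece) (n m : ℕ) (hP : Fit P n) (hQ : Fit Q m) (f : List (Fin N) → ℂ)
    (s t : List (Fin N)) (hs : s.length = out P n) (ht : t.length = out Q m) :
    run N (rt N) [P, shP (out P n) Q] f (s ++ t) = run N (rt N) [shP n Q, P] f (s ++ t) := by
  obtain ⟨c, l, hl, hc⟩ := act_repr P n hP s hs
  obtain ⟨d, k, hk, hd⟩ := act_repr Q m hQ t ht
  have left : ∀ (g : List (Fin N) → ℂ) (u : List (Fin N)),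
      P.act N (rt N) g (s ++ u) = P.act N (rt N) (fun w => g (w ++ u)) s := by
    intro g u
    have := act_shift P n 0 hP g [] u s rfl hs
    rwa [shP_zero] at this
  have right : ∀ (i : ℕ) (g : List (Fin N) → ℂ) (w : List (Fin N)), w.length = i →
      (shP i Q).act N (rt N) g (w ++ t) = Q.act N (rt N) (fun u => g (w ++ u)) t := by
    intro i g w hw
    have := act_shift Q m i hQ g w [] t hw ht
    simpa using this
  have e1 : run N (rt N) [P, shP (out P n) Q] f (s ++ t) = ∑ q, d q * ∑ p, c p * f (l p ++ k q) := by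
    change (shP (out P n) Q).act N (rt N) (P.act N (rt N) f) (s ++ t) = _
    rw [right _ _ s hs, hd]
    refine sum_congr rfl fun q _ => ?_
    rw [left, hc]
  have e2 : run N (rt N) [shP n Q, P] f (s ++ t) = ∑ p, c p * ∑ q, d q * f (l p ++ k q) := by
    change P.act N (rt N) ((shP n Q).act N (rt N) f) (s ++ t) = _
    rw [left, hc]
    refine sum_congr rfl fun p _ => ?_
    rw [right _ _ (l p) (hl p), hd]
  rw [e1, e2]
  simp only [mul_sum]
  rw [sum_comm]
  exact sum_congr rfl fun p _ => sum_congr rfl fun q _ => by ring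

end Pool.Agent.Q66.MV
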